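import Mathlib

/-!
MP_eb3c87_al, Q1. Let `k` be a field of characteristic `p`, `l : G → ℤ/p` a homomorphism and `h ∈ G`
with `l(h) ≠ 0`. Let `B` be a direct factor of `kG` (for example a block) and `S` a simple
`B`-module. If `h` lies in a finite normal `p`-subgroup, or if the restriction of `S` to `⟨h⟩` has a
direct summand of dimension prime to `p`, then `Ext¹_B(S, S) ≠ 0`.
-/

universe u

open CategoryTheory CategoryTheory.Abelian

namespace Pool.Agent.Results.MP_eb3c87_al.SelfExtension

section ext

variable {B : Type u} [Ring B]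

/-- `S ⊕ S` -/
private def Tw (_D : B →+ B) (S : Type u) : Type u := S × S

private instance (D : B →+ B) (S : Type u) [AddCommGroup S] : AddCommGroup (Tw D S) :=
  inferInstanceAs (AddCommGroup (S × S))

private lemma D_one (D : B →+ B) (hD : ∀ x y, D (x * y) = D x * y + x * D y) : D 1 = 0 := by
  have := hD 1 1
  simpa using this

/-- the twisted action `b (u, v) = (b u + D(b) v, b v)` -/
private abbrev twModule (D : B →+ B) (hD : ∀ x y, D (x * y) = D x * y + x * D y)
    (S : Type u) [AddCommGroup S] [Module B S] : Module B (Tw D S) where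
  smul b x := ((b • x.1 + D b • x.2, b • x.2) : S × S)
  one_smul x := by
    show ((1 : B) • x.1 + D 1 • x.2, (1 : B) • x.2) = x
    rw [D_one D hD, one_smul, zero_smul, add_zero, one_smul]
    rfl
  mul_smul b c x := by
    show ((b * c) • x.1 + D (b * c) • x.2, (b * c) • x.2) =
      ((b • (c • x.1 + D c • x.2) + D b • (c • x.2), b • (c • x.2)) : S × S)
    rw [hD]
    simp only [mul_smul, add_smul, smul_add, Prod.mk.injEq, and_true]
    abel
  smul_zero b := by
    show ((b • (0 : S) + D b • (0 : S), b • (0 : S)) : S × S) = (0, 0)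
    simp
  smul_add b x y := by
    show ((b • (x.1 + y.1) + D b • (x.2 + y.2), b • (x.2 + y.2)) : S × S) =
      ((b • x.1 + D b • x.2) + (b • y.1 + D b • y.2), b • x.2 + b • y.2)
    simp only [smul_add, Prod.mk.injEq, and_true]
    abel
  add_smul b c x := by
    show (((b + c) • x.1 + D (b + c) • x.2, (b + c) • x.2) : S × S) =
      ((b • x.1 + D b • x.2) + (c • x.1 + D c • x.2), b • x.2 + c • x.2)
    simp only [add_smul, map_add, Prod.mk.injEq, and_true]
    abel
  zero_smul x := by
    show (((0 : B) • x.1 + D 0 • x.2, (0 : B) • x.2) : S × S) = (0, 0)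
    simp

private theorem exists_T (D : B →+ B) (hD : ∀ x y, D (x * y) = D x * y + x * D y)
    (S : Type u) [AddCommGroup S] [Module B S]
    (hcon : Subsingleton (Ext (ModuleCat.of B S) (ModuleCat.of B S) 1)) :
    ∃ T : S →+ S, ∀ (b : B) (v : S), T (b • v) = b • T v + D b • v := by
  let _ := twModule D hD S
  let f : S →ₗ[B] Tw D S :=
    { toFun := fun u => ((u, 0) : S × S)
      map_add' := fun x y => by
        show ((x + y, 0) : S × S) = (x + y, 0 + 0)
        simp
      map_smul' := fun c x => by
        show ((c • x, 0) : S × S) = (c • x + D c • (0 : S), c • (0 : S))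
        simp }
  let g : Tw D S →ₗ[B] S :=
    { toFun := fun x => x.2
      map_add' := fun x y => rfl
      map_smul' := fun c x => rfl }
  let C : ShortComplex (ModuleCat.{u} B) :=
    ShortComplex.mk (X₁ := ModuleCat.of B S) (X₂ := ModuleCat.of B (Tw D S))
      (X₃ := ModuleCat.of B S) (ModuleCat.ofHom f) (ModuleCat.ofHom g) (by ext; rfl)
  have hC : C.ShortExact :=
    { exact := (ShortComplex.moduleCat_exact_iff C).2 (by
        intro x hx
        refine ⟨x.1, ?_⟩
        show ((x.1, 0) : S × S) = x
        exact Prod.ext rfl (Eq.symm hx))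
      mono_f := (ModuleCat.mono_iff_injective _).2 (by
        intro x y hxy
        exact (Prod.mk.inj hxy).1)
      epi_g := (ModuleCat.epi_iff_surjective _).2 (by
        intro x
        exact ⟨((0, x) : S × S), rfl⟩) }
  have : Subsingleton (Ext C.X₃ C.X₁ 1) := hcon
  obtain ⟨x₂, hx₂⟩ := Ext.covariant_sequence_exact₃ (X := C.X₃) hC (Ext.mk₀ (𝟙 C.X₃)) (zero_add 1)
    (Subsingleton.elim _ _)
  obtain ⟨s, rfl⟩ := (Ext.mk₀_bijective _ _).2 x₂
  rw [Ext.mk₀_comp_mk₀] at hx₂
  have hs := (Ext.mk₀_bijective _ _).1 hx₂
  have hs2 : ∀ v : S, (s.hom v : S × S).2 = v := fun v => by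
    have := congrArg (fun t => (ModuleCat.Hom.hom t) v) hs
    exact this
  refine ⟨{ toFun := fun v => (s.hom v : S × S).1, map_zero' := ?_, map_add' := ?_ }, ?_⟩
  · have h1 : s.hom (0 : S) = 0 := s.hom.map_zero
    exact congrArg (fun t : S × S => t.1) h1
  · intro x y
    have h1 : s.hom (x + y) = s.hom x + s.hom y := s.hom.map_add x y
    exact congrArg (fun t : S × S => t.1) h1
  · intro b v
    have h1 : s.hom (b • v) = b • s.hom v := s.hom.map_smul b v
    have h2 : ((s.hom (b • v)) : S × S).1 =
        b • ((s.hom v) : S × S).1 + D b • ((s.hom v) : S × S).2 :=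
      congrArg (fun t : S × S => t.1) h1
    rw [hs2] at h2
    exact h2

end ext

section der

variable {k G : Type u} [Field k] [Group G]

private noncomputable def F (c : G → k) (hc : ∀ g h, c (g * h) = c g + c h) :
    G →* DualNumber (MonoidAlgebra k G) where
  toFun g := TrivSqZeroExt.inl (MonoidAlgebra.of k G g) +
    TrivSqZeroExt.inr (c g • MonoidAlgebra.of k G g)
  map_one' := by
    have : c 1 = 0 := by
      have := hc 1 1
      simpa using this
    rw [this, map_one, zero_smul]
    simp
  map_mul' g h := by
    ext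
    · simp
    · simp [hc, add_smul, add_comm]

private noncomputable def d (c : G → k) (hc : ∀ g h, c (g * h) = c g + c h) :
    MonoidAlgebra k G →+ MonoidAlgebra k G where
  toFun x := (MonoidAlgebra.lift k (DualNumber (MonoidAlgebra k G)) G (F c hc) x).snd
  map_zero' := by simp
  map_add' x y := by simp

private lemma fst_lift (c : G → k) (hc : ∀ g h, c (g * h) = c g + c h) (x : MonoidAlgebra k G) :
    (MonoidAlgebra.lift k (DualNumber (MonoidAlgebra k G)) G (F c hc) x).fst = x := by
  induction x using MonoidAlgebra.induction_linear with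
  | zero => simp
  | add x y hx hy => simp [hx, hy]
  | single g a => simp [F]

private lemma d_mul (c : G → k) (hc : ∀ g h, c (g * h) = c g + c h) (x y : MonoidAlgebra k G) :
    d c hc (x * y) = d c hc x * y + x * d c hc y := by
  show (MonoidAlgebra.lift k (DualNumber (MonoidAlgebra k G)) G (F c hc) (x * y)).snd = _
  rw [map_mul, TrivSqZeroExt.snd_mul, fst_lift, fst_lift]
  rw [add_comm]
  rfl

private lemma d_of (c : G → k) (hc : ∀ g h, c (g * h) = c g + c h) (g : G) :
    d c hc (MonoidAlgebra.of k G g) = c g • MonoidAlgebra.of k G g := by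
  show (MonoidAlgebra.lift k (DualNumber (MonoidAlgebra k G)) G (F c hc)
    (MonoidAlgebra.of k G g)).snd = _
  simp [F]

private lemma d_algebraMap (c : G → k) (hc : ∀ g h, c (g * h) = c g + c h) (a : k) :
    d c hc (algebraMap k (MonoidAlgebra k G) a) = 0 := by
  show (MonoidAlgebra.lift k (DualNumber (MonoidAlgebra k G)) G (F c hc)
    (algebraMap k (MonoidAlgebra k G) a)).snd = _
  rw [AlgHom.commutes]
  rfl

end der

section group

variable {k G : Type u} [Field k] [Group G]

/-- a finite `p`-group acting on a group of exponent `p` fixes a non-zero element -/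
private lemma exists_fixed (p : ℕ) [Fact p.Prime] {N : Type u} [Group N] [Finite N]
    (hN : IsPGroup p N) {S : Type u} [AddCommGroup S] [Module (ZMod p) S]
    (ρ : N →* AddMonoid.End S) (v : S) (hv : v ≠ 0) : ∃ w : S, w ≠ 0 ∧ ∀ n, ρ n w = w := by
  have hp : ∀ x : S, p • x = 0 := fun x => by
    rw [← Nat.cast_smul_eq_nsmul (ZMod p), CharP.cast_eq_zero, zero_smul]
  let A : Submodule (ZMod p) S := Submodule.span (ZMod p) (Set.range fun n : N => ρ n v)
  have hAf : Finite A := by
    have : Module.Finite (ZMod p) A :=
      Module.Finite.span_of_finite (ZMod p) (Set.finite_range fun n : N => ρ n v)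
    exact Module.finite_of_finite (ZMod p)
  have hcl : ∀ (n : N) (a : S), a ∈ A → ρ n a ∈ A := by
    intro n a ha
    induction ha using Submodule.span_induction with
    | mem x hx =>
      obtain ⟨m, rfl⟩ := hx
      refine Submodule.subset_span ⟨n * m, ?_⟩
      show ρ (n * m) v = ρ n (ρ m v)
      rw [map_mul]
      rfl
    | zero => rw [map_zero]; exact zero_mem _
    | add x y _ _ hx hy => rw [map_add]; exact add_mem hx hy
    | smul c x _ hx =>
      rw [ZMod.map_smul (ρ n) c x]
      exact A.smul_mem c hx
  let _ : MulAction N A :=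
    { smul := fun n a => ⟨ρ n a.1, hcl n a.1 a.2⟩
      one_smul := fun a => by
        refine Subtype.ext ?_
        show ρ 1 a.1 = a.1
        rw [map_one]
        rfl
      mul_smul := fun m n a => by
        refine Subtype.ext ?_
        show ρ (m * n) a.1 = ρ m (ρ n a.1)
        rw [map_mul]
        rfl }
  have hvA : v ∈ A := Submodule.subset_span ⟨1, by
    show ρ 1 v = v
    rw [map_one]
    rfl⟩
  have hdiv : p ∣ Nat.card A := by
    have h1 : addOrderOf (⟨v, hvA⟩ : A) = p := by
      refine addOrderOf_eq_prime ?_ ?_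
      · exact Subtype.ext (hp v)
      · intro h
        exact hv (congrArg Subtype.val h)
    have h2 := addOrderOf_dvd_natCard (⟨v, hvA⟩ : A)
    rwa [h1] at h2
  obtain ⟨w, hw, hw0⟩ := hN.exists_fixed_point_of_prime_dvd_card_of_fixed_point A hdiv
    (a := (0 : A)) (by
      intro n
      refine Subtype.ext ?_
      show ρ n (0 : S) = 0
      exact map_zero _)
  exact ⟨w.1, fun h => hw0 (Subtype.ext h.symm), fun n => congrArg Subtype.val (hw n)⟩

/-- a normal `p`-subgroup acts trivially on every simple module over a quotient ring of `kG` -/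
private lemma trivial_action (p : ℕ) [Fact p.Prime] [CharP k p] (N : Subgroup G) [N.Normal]
    [Finite N] (hN : IsPGroup p N) {B : Type u} [Ring B] (π : MonoidAlgebra k G →+* B)
    (hπ : Function.Surjective π) (S : Type u) [AddCommGroup S] [Module B S] [IsSimpleModule B S]
    (n : G) (hn : n ∈ N) (v : S) : π (MonoidAlgebra.of k G n) • v = v := by
  let ρ : G →* B := π.toMonoidHom.comp (MonoidAlgebra.of k G)
  have hρ : ∀ g : G, ρ g = π (MonoidAlgebra.of k G g) := fun g => rfl
  have hp : ∀ x : S, p • x = 0 := by
    intro x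
    have h1 : (p : MonoidAlgebra k G) = 0 := by
      have h2 : algebraMap k (MonoidAlgebra k G) (p : k) = (p : MonoidAlgebra k G) := map_natCast _ _
      rw [← h2, CharP.cast_eq_zero, map_zero]
    have h3 : (p : B) = 0 := by
      rw [← map_natCast π, h1, map_zero]
    rw [← Nat.cast_smul_eq_nsmul B, h3, zero_smul]
  let W : Submodule B S :=
    { carrier := {w | ∀ n ∈ N, ρ n • w = w}
      add_mem' := fun {a b} ha hb n hn => by rw [smul_add, ha n hn, hb n hn]
      zero_mem' := fun n _ => smul_zero _
      smul_mem' := fun b w hw => by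
        obtain ⟨x, rfl⟩ := hπ b
        induction x using MonoidAlgebra.induction_linear with
        | zero =>
          intro n _
          rw [map_zero, zero_smul, smul_zero]
        | add x y hx hy =>
          intro n hn
          rw [map_add, add_smul, smul_add, hx n hn, hy n hn]
        | single g a =>
          intro n hn
          have h1 : g⁻¹ * n * g ∈ N := by
            have := ‹N.Normal›.conj_mem n hn g⁻¹
            simpa using this
          have h2 := hw _ h1
          have h3 : (MonoidAlgebra.single n (1 : k)) * (MonoidAlgebra.single g a) =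
              (MonoidAlgebra.single g a) * (MonoidAlgebra.single (g⁻¹ * n * g) (1 : k)) := by
            rw [MonoidAlgebra.single_mul_single, MonoidAlgebra.single_mul_single, one_mul, mul_one]
            congr 1
            group
          have h4 : ρ n * π (MonoidAlgebra.single g a) =
              π (MonoidAlgebra.single g a) * ρ (g⁻¹ * n * g) := by
            rw [hρ, hρ, MonoidAlgebra.of_apply, MonoidAlgebra.of_apply, ← map_mul, ← map_mul, h3]
          rw [← mul_smul, h4, mul_smul, h2] }
  have hW : W ≠ ⊥ := by
    have : Nontrivial S := IsSimpleModule.nontrivial B S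
    obtain ⟨v, hv⟩ := exists_ne (0 : S)
    let _ : Module (ZMod p) S := AddCommGroup.zmodModule hp
    obtain ⟨w, hw0, hw⟩ := exists_fixed p hN
      (((DistribMulAction.toAddMonoidEnd B S).comp ρ).comp N.subtype) v hv
    intro hbot
    have hwW : w ∈ W := fun n hn => hw ⟨n, hn⟩
    rw [hbot, Submodule.mem_bot] at hwW
    exact hw0 hwW
  have hW2 : W = ⊤ := (eq_bot_or_eq_top W).resolve_left hW
  have hvW : v ∈ W := by rw [hW2]; exact Submodule.mem_top
  exact hvW n hn

/-- Let `k` be a field of characteristic `p`, `l : G → ℤ/p` a homomorphism, `h ∈ G` with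
`l(h) ≠ 0`, `kG ≅ B × C` a decomposition of the group algebra as a product of two `k`-algebras and
`S` a simple `B`-module of finite dimension over `k`. Suppose that `h` lies in a finite normal
`p`-subgroup of `G`, or that some projection `e` of the vector space `S` commutes with `h` and has
rank prime to `p`. Then `Ext¹_B(S, S) ≠ 0`. -/
theorem result (p : ℕ) [Fact p.Prime] [CharP k p] (l : G →* Multiplicative (ZMod p)) (h : G)
    (hl : l h ≠ 1) {B C : Type u} [Ring B] [Ring C] [Algebra k B] [Algebra k C]
    (Φ : MonoidAlgebra k G ≃ₐ[k] B × C) (S : Type u) [AddCommGroup S] [Module k S] [Module B S]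
    [IsScalarTower k B S] [FiniteDimensional k S] [IsSimpleModule B S]
    (hS : (∃ N : Subgroup G, N.Normal ∧ Finite N ∧ IsPGroup p N ∧ h ∈ N) ∨
      ∃ e : Module.End k S, e * e = e ∧
        (∀ v, e ((Φ (MonoidAlgebra.of k G h)).1 • v) = (Φ (MonoidAlgebra.of k G h)).1 • e v) ∧
        ¬ p ∣ Module.finrank k (LinearMap.range e)) :
    Nontrivial (Ext (ModuleCat.of B S) (ModuleCat.of B S) 1) := by
  let κ : ZMod p →+* k := ZMod.castHom (dvd_refl p) k
  let c : G → k := fun g => κ (Multiplicative.toAdd (l g))
  have hc : ∀ g h, c (g * h) = c g + c h := fun g h => by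
    show κ (Multiplicative.toAdd (l (g * h))) = κ _ + κ _
    rw [map_mul, toAdd_mul, map_add]
  have hcn : c h ≠ 0 := by
    intro h0
    have h1 : Multiplicative.toAdd (l h) = 0 := κ.injective (by rw [map_zero]; exact h0)
    exact hl (toAdd_eq_zero.1 h1)
  let π : MonoidAlgebra k G →+* B := (RingHom.fst B C).comp (Φ : MonoidAlgebra k G →+* B × C)
  have hπ : ∀ x, π x = (Φ x).1 := fun x => rfl
  let s : B →+ MonoidAlgebra k G :=
    ((Φ.symm : B × C →+* MonoidAlgebra k G) : B × C →+ MonoidAlgebra k G).comp
      (AddMonoidHom.inl B C)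
  have hs : ∀ b, s b = Φ.symm (b, 0) := fun b => rfl
  have hπs : ∀ b, π (s b) = b := fun b => by rw [hs, hπ, AlgEquiv.apply_symm_apply]
  have hsm : ∀ a b, s (a * b) = s a * s b := fun a b => by
    rw [hs, hs, hs, ← map_mul, Prod.mk_mul_mk, mul_zero]
  have hsπ : ∀ x, s (π x) = s 1 * x := fun x => by
    apply Φ.injective
    rw [hs, hs, map_mul, AlgEquiv.apply_symm_apply, AlgEquiv.apply_symm_apply, hπ]
    refine Prod.ext ?_ ?_
    · show (Φ x).1 = 1 * (Φ x).1
      rw [one_mul]
    · show (0 : C) = 0 * (Φ x).2
      rw [zero_mul]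
  let D : B →+ B := π.toAddMonoidHom.comp ((d c hc).comp s)
  have hDdef : ∀ b, D b = π (d c hc (s b)) := fun b => rfl
  have hD : ∀ x y, D (x * y) = D x * y + x * D y := fun x y => by
    rw [hDdef, hDdef, hDdef, hsm, d_mul, map_add, map_mul, map_mul, hπs, hπs]
  have hDπ : ∀ x, D (π x) = π (d c hc x) := fun x => by
    rw [hDdef, hsπ, d_mul, map_add, map_mul, map_mul, ← hDdef, D_one D hD, hπs]
    rw [zero_mul, one_mul, zero_add]
  have hπa : ∀ (a : k) (v : S), π (algebraMap k _ a) • v = a • v := fun a v => by
    have h1 : π (algebraMap k _ a) = algebraMap k B a := by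
      rw [hπ, AlgEquiv.commutes]
      rfl
    rw [h1, algebraMap_smul]
  have hDh : ∀ v : S, D (π (MonoidAlgebra.of k G h)) • v =
      c h • π (MonoidAlgebra.of k G h) • v := fun v => by
    rw [hDπ, d_of, Algebra.smul_def, map_mul, mul_smul, hπa]
  by_contra hcon
  rw [not_nontrivial_iff_subsingleton] at hcon
  obtain ⟨T, hT⟩ := exists_T D hD S hcon
  rcases hS with ⟨N, hN1, hN2, hN3, hN4⟩ | ⟨e, he, heh, hrk⟩
  · have : Nontrivial S := IsSimpleModule.nontrivial B S
    obtain ⟨v, hv⟩ := exists_ne (0 : S)
    have ht := trivial_action p N hN3 π (fun b => ⟨s b, hπs b⟩) S h hN4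
    have h1 := hT (π (MonoidAlgebra.of k G h)) v
    rw [hDh, ht, ht] at h1
    have h2 : c h • v = 0 := by simpa using h1
    exact hv ((smul_eq_zero.1 h2).resolve_left hcn)
  · have hTk : ∀ (a : k) (v : S), T (a • v) = a • T v := fun a v => by
      have h1 := hT (π (algebraMap k _ a)) v
      rw [hDπ, d_algebraMap, map_zero, zero_smul, add_zero, hπa, hπa] at h1
      exact h1
    let T' : Module.End k S := { toFun := T, map_add' := T.map_add, map_smul' := hTk }
    let P : G → Module.End k S := fun g =>
      { toFun := fun v => π (MonoidAlgebra.of k G g) • v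
        map_add' := fun x y => smul_add _ _ _
        map_smul' := fun a v => by
          show π (MonoidAlgebra.of k G g) • a • v = a • π (MonoidAlgebra.of k G g) • v
          rw [← hπa, ← hπa, ← mul_smul, ← mul_smul, ← map_mul, ← map_mul, Algebra.commutes] }
    have hPP : P h * P h⁻¹ = 1 := by
      ext v
      show π (MonoidAlgebra.of k G h) • π (MonoidAlgebra.of k G h⁻¹) • v = v
      rw [← mul_smul, ← map_mul, ← map_mul, mul_inv_cancel, map_one, map_one, one_smul]
    have hPP2 : P h⁻¹ * P h = 1 := by
      ext v
      show π (MonoidAlgebra.of k G h⁻¹) • π (MonoidAlgebra.of k G h) • v = v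
      rw [← mul_smul, ← map_mul, ← map_mul, inv_mul_cancel, map_one, map_one, one_smul]
    have heP : e * P h = P h * e := by
      ext v
      exact heh v
    have hTP : T' * P h = P h * T' + c h • P h := by
      ext v
      show T (π (MonoidAlgebra.of k G h) • v) = π (MonoidAlgebra.of k G h) • T v + _
      rw [hT, hDh]
      rfl
    have h1 : e * T' * e * P h = P h * (e * T' * e) + c h • (P h * e) := by
      calc e * T' * e * P h = e * T' * (e * P h) := by noncomm_ring
        _ = e * (T' * P h) * e := by rw [heP]; noncomm_ring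
        _ = e * (P h * T' + c h • P h) * e := by rw [hTP]
        _ = (e * P h) * T' * e + c h • ((e * P h) * e) := by
          rw [mul_add, add_mul, mul_smul_comm, smul_mul_assoc]
          simp only [mul_assoc]
        _ = P h * (e * T' * e) + c h • (P h * e) := by
          rw [heP, mul_assoc (P h) e e, he]
          simp only [mul_assoc]
    have h2 : e * T' * e = P h * (e * T' * e) * P h⁻¹ + c h • e := by
      calc e * T' * e = e * T' * e * P h * P h⁻¹ := by rw [mul_assoc _ (P h), hPP, mul_one]
        _ = (P h * (e * T' * e) + c h • (P h * e)) * P h⁻¹ := by rw [h1]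
        _ = P h * (e * T' * e) * P h⁻¹ + c h • (e * (P h * P h⁻¹)) := by
          rw [add_mul, smul_mul_assoc, ← heP, mul_assoc e (P h)]
        _ = _ := by rw [hPP, mul_one]
    have h3 : LinearMap.trace k S (P h * (e * T' * e) * P h⁻¹) =
        LinearMap.trace k S (e * T' * e) := by
      rw [LinearMap.trace_mul_comm, ← mul_assoc, hPP2, one_mul]
    have h4 := congrArg (LinearMap.trace k S) h2
    rw [map_add, h3, map_smul] at h4
    have h5 : c h • LinearMap.trace k S e = 0 := by simpa using h4
    have h6 : LinearMap.trace k S e = 0 := (smul_eq_zero.1 h5).resolve_left hcn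
    have h7 : LinearMap.IsProj (LinearMap.range e) e :=
      { map_mem := fun v => ⟨v, rfl⟩
        map_id := by
          rintro _ ⟨w, rfl⟩
          exact congrArg (fun t : Module.End k S => t w) he }
    rw [h7.trace] at h6
    exact hrk ((CharP.cast_eq_zero_iff k p _).1 h6)

end group

end Pool.Agent.Results.MP_eb3c87_al.SelfExtension
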